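import Pool.Agent.Q311.AlgClt

/-!
# The central limit theorem for the digits of random algebraic numbers of fixed degree

The real algebraic numbers of degree `d ≥ 2` are ordered by their height `H` (the largest absolute value of a
coefficient of the minimal polynomial over the integers). Let `G` be a polynomial with real coefficients and
`1 ≤ deg G < d`, for instance `G = X`, let `b ≥ 2`, and let `F` be a function of the words of `w` digits in base
`b` whose asymptotic variance is positive, for instance the digit itself, or the indicator of a given word. Then,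
for `x` uniformly distributed on the finite set of the algebraic numbers of degree `d` and height at most `H`,
the sum of the values of `F` at the words of `w` digits at the places `s, …, s + N - 1` of `G(x)` is
asymptotically normal as `H → ∞`, with the mean and the variance which belong to a random real number, whenever
`N → ∞`, `δ log H ≤ s` and `s + N ≤ A log H`; here `δ > 0` and `A` are arbitrary.

The proof uses the estimate of the exponential sums over the algebraic numbers of bounded height
(`Pool.Agent.Y933.KG.alg_hat`) and the general central limit theorem `Pool.Agent.Y933.KD.clt_gen`, both from the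
starting files; the combination is in `Pool.Agent.Q311.AlgClt`.
-/

set_option autoImplicit false

open Filter Topology Polynomial

namespace Pool.Agent.Results.MP_5b6025_nt.CentralLimitByHeight

/-- the real algebraic numbers of degree `d` and height at most `H`: the real roots of the
irreducible integral polynomials of degree `d` with all coefficients at most `H` in absolute value -/
def AlgNumbers (d H : ℕ) : Set ℝ :=
  {x | ∃ P : ℤ[X], Irreducible P ∧ P.natDegree = d ∧ (∀ i, |P.coeff i| ≤ H) ∧ aeval x P = 0}

/-- the word of the `w` digits in base `b` of `y` which follow the first `n` digits after the point,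
read as an integer between `0` and `b ^ w - 1` -/
noncomputable def word (b w n : ℕ) (y : ℝ) : ℕ :=
  ⌊(b : ℝ) ^ w * Int.fract ((b : ℝ) ^ n * y)⌋₊

/-- the mean of `F` over the words of `w` digits -/
noncomputable def mean (b w : ℕ) (F : ℕ → ℝ) : ℝ :=
  (∑ c ∈ Finset.range (b ^ w), F c) / (b : ℝ) ^ w

/-- the covariance of the values of `F` at the first `w` and at the last `w` digits of a random word of
`w + h` digits -/
noncomputable def covariance (b w : ℕ) (F : ℕ → ℝ) (h : ℕ) : ℝ :=
  (∑ c ∈ Finset.range (b ^ (w + h)), (F (c / b ^ h) - mean b w F) * (F (c % b ^ w) - mean b w F)) /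
    (b : ℝ) ^ (w + h)

/-- the asymptotic variance -/
noncomputable def variance (b w : ℕ) (F : ℕ → ℝ) : ℝ :=
  covariance b w F 0 + 2 * ∑ h ∈ Finset.Ico 1 w, covariance b w F h

/-- for `x ∈ AlgNumbers d H`: the normalised sum of `F` over the places `s, …, s + N - 1` of `G(x)` is at
most `a` -/
def AtMost (b w : ℕ) (F : ℕ → ℝ) (G : ℝ[X]) (s N : ℕ) (a x : ℝ) : Prop :=
  ∑ i ∈ Finset.range N, F (word b w (s + i) (G.eval x)) - N * mean b w F ≤
    a * √(variance b w F * N)

theorem result (d : ℕ) (hd : 2 ≤ d) (b : ℕ) (hb : 2 ≤ b) (G : ℝ[X]) (hG1 : 1 ≤ G.natDegree)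
    (hG2 : G.natDegree < d) (w : ℕ) (hw : 1 ≤ w) (F : ℕ → ℝ) (hF : 0 < variance b w F) (A δ : ℝ)
    (hδ : 0 < δ) (s N : ℕ → ℕ) (hN : Tendsto N atTop atTop)
    (hs : ∀ᶠ H : ℕ in atTop, δ * Real.log H ≤ s H)
    (hsN : ∀ᶠ H : ℕ in atTop, (s H : ℝ) + N H ≤ A * Real.log H) (a : ℝ) :
    Tendsto (fun H : ℕ => (({x ∈ AlgNumbers d H | AtMost b w F G (s H) (N H) a x}.ncard : ℕ) : ℝ) /
      ((AlgNumbers d H).ncard : ℝ)) atTop
      (𝓝 ((ProbabilityTheory.gaussianReal 0 1).real (Set.Iic a))) := by
  classical
  obtain ⟨q, rfl⟩ : ∃ q, d = q + 2 := ⟨d - 2, by omega⟩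
  have hfin : ∀ H, (AlgNumbers (q + 2) H).Finite := fun H => Pool.Agent.Y933.KG.Alg_finite q H
  have key := Pool.Agent.Q311.AlgClt.clt_alg q b hb G hG1 (by omega)
    (fun H => (hfin H).toFinset) (fun H x => by rw [Set.Finite.mem_toFinset]; rfl)
    hw F hF hδ s N hN hs hsN a
  refine key.congr fun H => ?_
  congr 1
  · rw [← Set.ncard_coe_finset]
    congr 2
    ext x
    rw [Finset.mem_coe, Finset.mem_filter, Set.Finite.mem_toFinset]
    rfl
  · rw [Set.ncard_eq_toFinset_card _ (hfin H)]

end Pool.Agent.Results.MP_5b6025_nt.CentralLimitByHeight
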