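import Pool.Agent.Q220.PrM.Disc

/-!
# Digits of the multiples of algebraic irrational numbers by primes

Let `α` be a real algebraic irrational number. All but few of the numbers `a p α + x`, `p ≤ N` prime
(also in a residue class), contain, in every base `b ≤ B`, every block of `k` digits infinitely
often; and there are located places at which their digits in a given base are equidistributed with
a power saving. The exceptional sets are bounded uniformly in `α`.
-/

set_option autoImplicit false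

namespace Pool.Agent.Results.MP_5b6025_nt.PrimeMultiples

open Finset Polynomial

/-- the `j`-th digit of `y` in base `b` (`j ≥ 1`) -/
noncomputable def digit (b : ℕ) (y : ℝ) (j : ℕ) : ℤ := ⌊y * (b : ℝ) ^ j⌋ % (b : ℤ)

/-- the word `w` of `k` digits stands in the expansion of `y` in base `b` right after the `i`-th
digit -/
def Stands (b k : ℕ) (w : Fin k → Fin b) (y : ℝ) (i : ℕ) : Prop :=
  ∀ s : Fin k, digit b y (i + s + 1) = ((w s : ℕ) : ℤ)

open Classical in
/-- the number of times the word `w` stands in `y` right after one of the `l` places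
`s, …, s + l - 1` -/
noncomputable def count (b k : ℕ) (w : Fin k → Fin b) (y : ℝ) (s l : ℕ) : ℕ :=
  ((range l).filter (fun j => Stands b k w y (s + j))).card

/-- the primes `p ≤ N` with `p ≡ r (mod d)` -/
def primes (N d r : ℕ) : Finset ℕ := (range (N + 1)).filter (fun p => p.Prime ∧ p ≡ r [MOD d])

/-- Liouville's inequality -/
theorem alg_measure (α : ℝ) (hα : Irrational α) (D : ℕ) (g : ℤ[X]) (hg0 : g ≠ 0)
    (hg : g.natDegree = D) (hgα : aeval α g = 0) :
    ∃ c0 : ℝ, 0 < c0 ∧ ∀ q : ℕ, 1 ≤ q → ∀ p : ℤ,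
      c0 ≤ (q : ℝ) ^ ((D : ℝ) - 1) * |q * α - p| := by
  obtain ⟨A, hA, h⟩ := Liouville.exists_pos_real_of_irrational_root hα hg0 (by
    rw [Polynomial.eval_map]
    rwa [Polynomial.aeval_def] at hgα)
  refine ⟨1 / A, by positivity, ?_⟩
  intro q hq p
  have h1 := h p (q - 1)
  have hq0 : (0:ℝ) < q := by exact_mod_cast hq
  have e1 : (((q - 1 : ℕ) : ℝ) + 1) = q := by
    rw [Nat.cast_sub hq]; push_cast; ring
  rw [e1, hg] at h1
  rw [div_le_iff₀ hA]
  have e2 : (q : ℝ) ^ D = (q : ℝ) ^ ((D : ℝ) - 1) * q := by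
    have : (q : ℝ) ^ ((D : ℝ) - 1) * q = (q : ℝ) ^ ((D : ℝ) - 1 + 1) := by
      rw [Real.rpow_add hq0, Real.rpow_one]
    rw [this, sub_add_cancel, Real.rpow_natCast]
  have e3 : |(q:ℝ) * α - p| = q * |α - p / q| := by
    rw [← abs_of_pos hq0, ← abs_mul, abs_of_pos hq0]
    congr 1
    field_simp
  rw [e2] at h1
  rw [e3]
  linarith

open Classical in
/-- There are `c, C > 0` such that the following holds for every irrational real number `α` that is
a root of a nonzero integer polynomial of degree `D`, with a constant `C'` depending only on `α` and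
`D`, and for all `N ≥ 1`.
(1) For all integers `a ≠ 0`, `|a| ≤ N ^ c`, all residue classes `r` modulo `d ≤ N ^ c`, all real `x`
and all `B ≥ 2`, `k ≥ 1`, all but at most `C B ^ (k + 1) N (B² / N) ^ (c / (2 k B ^ k log B))` of the
primes `p ≤ N`, `p ≡ r (mod d)`, are such that in every base `2 ≤ b ≤ B` every word of `k` digits
stands infinitely often in the expansion of `a p α + x`.
(2) For every base `b ≥ 2` and every place `S` there is a place
`S ≤ s ≤ D S + (D - 1) / 4 · log_b N + C'` such that for all these `a`, `d`, `r`, `x`: the number of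
these primes with `u ≤ {b ^ s (a p α + x)} < v` is `v - u` times the number of all of them up to an
error of `C N (b² / N) ^ c`, for all `0 ≤ u ≤ v ≤ 1`; and for all `1 ≤ k ≤ L` with
`b ^ L ≤ (N / b²) ^ c` and `0 < ε ≤ 1`, for all but at most
`C k b ^ k exp (- ε² ⌊(L + 1 - k) / k⌋ / 4) N` of these primes every word of `k` digits stands among
the `L` digits of `a p α + x` after the place `s` the expected number `(L + 1 - k) / b ^ k` of
times, up to an error of `ε (L + 1 - k) + k`. -/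
theorem result : ∃ c C : ℝ, 0 < c ∧ 0 < C ∧ ∀ (α : ℝ) (D : ℕ) (g : ℤ[X]), Irrational α → g ≠ 0 →
    g.natDegree = D → aeval α g = 0 → ∃ C' : ℝ, ∀ N : ℕ, 1 ≤ N →
    (∀ a : ℤ, a ≠ 0 → |(a : ℝ)| ≤ (N : ℝ) ^ c → ∀ d r : ℕ, 1 ≤ d → (d : ℝ) ≤ (N : ℝ) ^ c → ∀ x : ℝ,
      ∀ B k : ℕ, 2 ≤ B → 1 ≤ k →
        (((primes N d r).filter (fun p : ℕ => ∃ b : ℕ, 2 ≤ b ∧ b ≤ B ∧ ∃ w : Fin k → Fin b,
          {i : ℕ | Stands b k w (a * p * α + x) i}.Finite)).card : ℝ) ≤
        C * (B : ℝ) ^ (k + 1) * N *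
          ((B : ℝ) ^ 2 / N) ^ (c / (2 * k * (B : ℝ) ^ k * Real.log B))) ∧
    (∀ b : ℕ, 2 ≤ b → ∀ S : ℕ, ∃ s : ℕ, S ≤ s ∧
      (s : ℝ) ≤ D * S + ((D : ℝ) - 1) / 4 * (Real.log N / Real.log b) + C' ∧
      ∀ a : ℤ, a ≠ 0 → |(a : ℝ)| ≤ (N : ℝ) ^ c → ∀ d r : ℕ, 1 ≤ d → (d : ℝ) ≤ (N : ℝ) ^ c → ∀ x : ℝ,
      (∀ u v : ℝ, 0 ≤ u → u ≤ v → v ≤ 1 →
        |(((primes N d r).filter fun p : ℕ =>
            u ≤ Int.fract ((b : ℝ) ^ s * (a * p * α + x)) ∧
            Int.fract ((b : ℝ) ^ s * (a * p * α + x)) < v).card : ℝ) -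
          (v - u) * (primes N d r).card| ≤ C * N * ((b : ℝ) ^ 2 / N) ^ c) ∧
      (∀ k L : ℕ, 1 ≤ k → k ≤ L → (b : ℝ) ^ L ≤ ((N : ℝ) / (b : ℝ) ^ 2) ^ c →
        ∀ ε : ℝ, 0 < ε → ε ≤ 1 →
        (((primes N d r).filter (fun p : ℕ => ∃ w : Fin k → Fin b,
          ε * (L + 1 - k : ℕ) + k < |(count b k w (a * p * α + x) s (L + 1 - k) : ℝ) -
            (L + 1 - k : ℕ) / (b : ℝ) ^ k|)).card : ℝ) ≤
          C * k * (b : ℝ) ^ k * Real.exp (-(ε ^ 2 / 4) * ((L + 1 - k) / k : ℕ)) * N)) := by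
  obtain ⟨c, C, hc, hC, h⟩ := Pool.Agent.Q220.PrM.main
  refine ⟨c, C, hc, hC, fun α D g hα hg0 hgD hgα => ?_⟩
  have hD2 : 2 ≤ D := by
    by_contra hlt
    have hD : D = 0 ∨ D = 1 := by omega
    have h1 : g = Polynomial.C (g.coeff 1) * X + Polynomial.C (g.coeff 0) :=
      eq_X_add_C_of_natDegree_le_one (by omega)
    have h2 : (g.coeff 1 : ℝ) * α + g.coeff 0 = 0 := by
      rw [h1] at hgα
      simpa using hgα
    by_cases h3 : g.coeff 1 = 0
    · rw [h3] at h2
      apply hg0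
      have h4 : (g.coeff 0 : ℝ) = 0 := by simpa using h2
      have h5 : g.coeff 0 = 0 := by exact_mod_cast h4
      rw [h1, h3, h5]; simp
    · apply hα
      refine ⟨-(g.coeff 0 : ℚ) / g.coeff 1, ?_⟩
      push_cast
      have h4 : (g.coeff 1 : ℝ) ≠ 0 := by exact_mod_cast h3
      rw [div_eq_iff h4]
      linarith
  obtain ⟨c0, hc0, hm⟩ := alg_measure α hα D g hg0 hgD hgα
  have hκ : (0:ℝ) < (D : ℝ) - 1 := by
    have : (2:ℝ) ≤ D := by exact_mod_cast hD2
    linarith
  refine ⟨|Real.log c0| / Real.log 2 + 1, fun N hN => ?_⟩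
  obtain ⟨h1, h2⟩ := h α ((D : ℝ) - 1) c0 hκ hc0 hm N hN
  have hf : ∀ (a : ℤ) (x : ℝ) (p : ℕ), (a : ℝ) * p * α + x = a * α * p + x := by
    intro a x p; ring
  refine ⟨?_, ?_⟩
  · intro a ha haN d r hd hdN x B k hB hk
    have h3 := h1 a ha haN d r hd hdN x B k hB hk
    simp only [hf]
    exact h3
  · intro b hb S
    obtain ⟨s, h3, h4, h5⟩ := h2 b hb S
    refine ⟨s, h3, ?_, ?_⟩
    · refine h4.trans (le_of_eq ?_)
      ring
    · intro a ha haN d r hd hdN x
      obtain ⟨h6, h7⟩ := h5 a ha haN d r hd hdN x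
      simp only [hf]
      exact ⟨fun u v hu huv hv => h6 u v hu huv hv,
        fun k L hk hkL hL ε hε hε1 => h7 k L hk hkL hL ε hε hε1⟩

end Pool.Agent.Results.MP_5b6025_nt.PrimeMultiples
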