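import Pool.Agent.Y933.KD.Roots
import Pool.Agent.Y933.KD.Fam

/-!
# Sums over the digits of the roots of the integers of a short interval are Gaussian

Let `c > 0` be a real number which is not an integer, for instance `c = 1 / s`. Let `m` run through
the integers of an interval `(N, N + M]` with `M ≥ N ^ (1 / 2 + ε)` and `M ≥ N ^ (1 - c + ε)`. Then
the sums of a real function `F` of the words of `w` digits (for instance the sums of digits, or the
numbers of occurrences of a word) over the windows `s, …, s + L - 1` of the places of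
`ω m ^ c + y`, with `s + L ≤ A log M` and `L → ∞`, satisfy the central limit theorem with the
mean and the variance of random numbers; `A`, the base, and `F` are arbitrary and `ω`, `y`, `N`,
`s` and `L` may depend on `M`.
-/

set_option autoImplicit false

namespace Pool.Agent.Results.MP_5b6025_nt.RootDigitsGaussian

open Filter Topology ProbabilityTheory

/-- the word of the `w` digits in base `b` of `x` which follow the first `n` digits after the point,
read as an integer between `0` and `b ^ w - 1` -/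
noncomputable def word (b w n : ℕ) (x : ℝ) : ℕ :=
  ⌊(b : ℝ) ^ w * Int.fract ((b : ℝ) ^ n * x)⌋₊

/-- the mean value of `F` over the words of `w` digits in base `b` -/
noncomputable def mean (b w : ℕ) (F : ℕ → ℝ) : ℝ :=
  (∑ j ∈ Finset.range (b ^ w), F j) / (b : ℝ) ^ w

/-- the covariance of the values of `F` at the first `w` and at the last `w` digits of a random word
of `w + h` digits in base `b` -/
noncomputable def cov (b w : ℕ) (F : ℕ → ℝ) (h : ℕ) : ℝ :=
  (∑ j ∈ Finset.range (b ^ (w + h)),
    (F (j / b ^ h) - mean b w F) * (F (j % b ^ w) - mean b w F)) / (b : ℝ) ^ (w + h)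

/-- the variance per digit: `cov 0 + 2 (cov 1 + … + cov (w - 1))` -/
noncomputable def variance (b w : ℕ) (F : ℕ → ℝ) : ℝ :=
  cov b w F 0 + 2 * ∑ h ∈ Finset.Ico 1 w, cov b w F h

/-- Let `c > 0` be a real number which is not an integer, `ε > 0`, `b, w ≥ 1` and let `F` be a real
function of the words of `w` digits in base `b` with positive variance. Let `N, s, L` be sequences
of natural numbers and `ω, y` sequences of real numbers such that, for large `M`,
`N M ^ (1 / 2 + ε) ≤ M`, `N M ^ (1 - c + ε) ≤ M`, `1 ≤ |ω M| ≤ M ^ W`, `s M + L M ≤ A log M`, and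
`L M` tends to infinity. Then for every real `a` the proportion of the integers `m` with
`N M < m ≤ N M + M` for which the sum of `F` over the words of `ω M * m ^ c + y M` at the `L M`
places `s M, …, s M + L M - 1`, minus `L M * mean`, is at most `a √(variance * L M)` tends to
the probability that a standard Gaussian variable is at most `a`. -/
theorem result {c : ℝ} (hc0 : 0 < c) (hc : ∀ n : ℕ, c ≠ n) {ε : ℝ} (hε : 0 < ε) (A W : ℝ)
    {b w : ℕ} (hb : 1 ≤ b) (hw : 1 ≤ w) (F : ℕ → ℝ) (hF : 0 < variance b w F)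
    (N s L : ℕ → ℕ) (ω y : ℕ → ℝ)
    (hN1 : ∀ᶠ M : ℕ in atTop, (N M : ℝ) ^ (1 / 2 + ε) ≤ M)
    (hN2 : ∀ᶠ M : ℕ in atTop, (N M : ℝ) ^ (1 - c + ε) ≤ M)
    (hω : ∀ᶠ M : ℕ in atTop, 1 ≤ |ω M| ∧ |ω M| ≤ (M : ℝ) ^ W)
    (hL : Tendsto L atTop atTop)
    (hsL : ∀ᶠ M : ℕ in atTop, (s M : ℝ) + L M ≤ A * Real.log M) (a : ℝ) :
    Tendsto (fun M : ℕ => (({m : ℕ | N M < m ∧ m ≤ N M + M ∧
      ∑ i ∈ Finset.range (L M), F (word b w (s M + i) (ω M * (m : ℝ) ^ c + y M)) -
        L M * mean b w F ≤ a * √(variance b w F * L M)}.ncard : ℕ) : ℝ) / M) atTop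
      (𝓝 ((gaussianReal 0 1).real (Set.Iic a))) := by
  classical
  have h1 := Pool.Agent.Y933.KD.clt_gen (ι := ℕ) hb hw F hF
    (Pool.Agent.Y933.KD.SR_prob c ε W) (fun k => Pool.Agent.Y933.KD.good_root hc0 hc hε W b k A)
    (fun M => Finset.Ioc (N M) (N M + M)) (fun M m => ω M * (m : ℝ) ^ c + y M) (by
      filter_upwards [hN1, hN2, hω, eventually_ge_atTop 1] with M h2 h3 h4 h5
      refine ⟨?_, N M, ω M, y M, h2, h3, h4.1, h4.2, rfl⟩
      rw [Finset.nonempty_Ioc]
      omega) s L hL hsL a
  refine h1.congr fun M => ?_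
  have h2 : {m : ℕ | N M < m ∧ m ≤ N M + M ∧
      ∑ i ∈ Finset.range (L M), F (word b w (s M + i) (ω M * (m : ℝ) ^ c + y M)) -
        L M * mean b w F ≤ a * √(variance b w F * L M)} =
      (((Finset.Ioc (N M) (N M + M)).filter (fun m : ℕ =>
        ∑ i ∈ Finset.range (L M), F (Pool.Agent.Y933.KD.wd b w (s M + i)
          (ω M * (m : ℝ) ^ c + y M)) - L M * Pool.Agent.Y933.KD.mn b w F ≤
        a * √((Pool.Agent.Y933.KD.cv b w F 0 +
          2 * ∑ h ∈ Finset.Ico 1 w, Pool.Agent.Y933.KD.cv b w F h) * L M)) :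
          Finset ℕ) : Set ℕ) := by
    ext m
    simp only [Set.mem_ofPred_eq, Finset.coe_filter, Finset.mem_Ioc, and_assoc]
    rfl
  have hc' : (Finset.Ioc (N M) (N M + M)).card = M := by rw [Nat.card_Ioc]; omega
  rw [h2, Set.ncard_coe_finset, hc']

end Pool.Agent.Results.MP_5b6025_nt.RootDigitsGaussian
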