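import Pool.Agent.Y933.KD.Roots
import Pool.Agent.Y933.KD.Fam

/-!
# The joint distribution of far away digits of the roots of the integers of a short interval

Let `c > 0` be a real number which is not an integer, for instance `c = 1 / s`. Let `m` run through
the integers of an interval `(N, N + M]` with `M ≥ N ^ (1 / 2 + ε)` and `M ≥ N ^ (1 - c + ε)`. Then
the digits of `ω m ^ c + y` at `k` arbitrary places up to `A log M`, in `k` arbitrary bases up to
`B` (each base and each place may be used several times), have the same joint distribution as those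
of a random number, with an error `C M ^ (-δ)`; `A`, `B` and `k` are arbitrary, and `δ` and `C` do
not depend on the interval, the bases, the places and the numbers `ω` and `y`.
-/

set_option autoImplicit false

namespace Pool.Agent.Results.MP_5b6025_nt.RootDigitsJoint

open MeasureTheory

/-- Let `c > 0` be a real number which is not an integer and let `ε > 0`, `A`, `W`, `B`, `k` be
given. There are `δ > 0` and `C` such that for all `M ≥ 1` and all `N` with
`N ^ (1 / 2 + ε) ≤ M` and `N ^ (1 - c + ε) ≤ M`, all real `ω`, `y` with `1 ≤ |ω| ≤ M ^ W`, all bases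
`1 ≤ b i ≤ B` and all places `n i ≤ A log M` (`i < k`) and all intervals `[u i, v i) ⊆ [0, 1)` the
proportion of the integers `m` with `N < m ≤ N + M` for which `{b i ^ n i (ω m ^ c + y)}` lies in
`[u i, v i)` for all `i` differs from the Lebesgue measure of the set of all `t` in `[0, 1)` for
which `{b i ^ n i t}` lies in `[u i, v i)` for all `i` by at most `C M ^ (-δ)`. -/
theorem result {c : ℝ} (hc0 : 0 < c) (hc : ∀ n : ℕ, c ≠ n) {ε : ℝ} (hε : 0 < ε) (B k : ℕ)
    (A W : ℝ) :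
    ∃ δ : ℝ, 0 < δ ∧ ∃ C : ℝ, ∀ M N : ℕ, 1 ≤ M →
      (N : ℝ) ^ (1 / 2 + ε) ≤ M → (N : ℝ) ^ (1 - c + ε) ≤ M →
      ∀ ω y : ℝ, 1 ≤ |ω| → |ω| ≤ (M : ℝ) ^ W →
      ∀ b n : Fin k → ℕ, (∀ i, 1 ≤ b i ∧ b i ≤ B) → (∀ i, (n i : ℝ) ≤ A * Real.log M) →
      ∀ u v : Fin k → ℝ, (∀ i, 0 ≤ u i) → (∀ i, v i ≤ 1) →
      |(({m : ℕ | N < m ∧ m ≤ N + M ∧ ∀ i, Int.fract ((b i : ℝ) ^ n i * (ω * (m : ℝ) ^ c + y)) ∈
          Set.Ico (u i) (v i)}.ncard : ℕ) : ℝ) / M -
        (volume {t : ℝ | t ∈ Set.Ico (0 : ℝ) 1 ∧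
          ∀ i, Int.fract ((b i : ℝ) ^ n i * t) ∈ Set.Ico (u i) (v i)}).toReal| ≤
        C * (M : ℝ) ^ (-δ) := by
  classical
  obtain ⟨δ, hδ, C, h⟩ := Pool.Agent.Y933.KD.tests_gen (ι := ℕ)
    (Pool.Agent.Y933.KD.SR_prob c ε W) (Pool.Agent.Y933.KD.good_root hc0 hc hε W B k A)
  refine ⟨δ, hδ, C, fun M N hM hN1 hN2 ω y hω1 hω2 b n hb hn u v hu hv => ?_⟩
  have h1 := h M hM (Finset.Ioc N (N + M)) (fun m : ℕ => ω * (m : ℝ) ^ c + y)
    ⟨N, ω, y, hN1, hN2, hω1, hω2, rfl⟩ b n hb hn u v hu hv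
  have h2 : {m : ℕ | N < m ∧ m ≤ N + M ∧ ∀ i,
      Int.fract ((b i : ℝ) ^ n i * (ω * (m : ℝ) ^ c + y)) ∈ Set.Ico (u i) (v i)} =
      (((Finset.Ioc N (N + M)).filter (fun m : ℕ => ∀ i,
        Int.fract ((b i : ℝ) ^ n i * (ω * (m : ℝ) ^ c + y)) ∈ Set.Ico (u i) (v i)) :
          Finset ℕ) : Set ℕ) := by
    ext m
    simp only [Set.mem_ofPred_eq, Finset.coe_filter, Finset.mem_Ioc, and_assoc]
  have hc' : (Finset.Ioc N (N + M)).card = M := by rw [Nat.card_Ioc]; omega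
  rw [hc'] at h1
  rw [h2, Set.ncard_coe_finset]
  exact h1

end Pool.Agent.Results.MP_5b6025_nt.RootDigitsJoint
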